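import Pool.Agent.H958.RL.Stm2
import Pool.Agent.H331.RL.Refl

/-!
# The reflection preserves expectations
-/

set_option autoImplicit false

namespace Pool.Agent.H935.RL.Exrefl

open Finset Pool.Agent.W830.RD Pool.Agent.H958.RL Pool.Agent.H331.RL.Refl
open scoped Classical

theorem main : S_EXREFL := by
  intro p n g
  unfold Ex
  refine Finset.sum_nbij' rv rv ?_ ?_ ?_ ?_ ?_
  · intro E hE
    rw [Finset.mem_powerset] at hE ⊢
    exact rv_sub hE
  · intro E hE
    rw [Finset.mem_powerset] at hE ⊢
    exact rv_sub hE
  · intro E _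
    exact rv_rv E
  · intro E _
    exact rv_rv E
  · intro E _
    rw [rv_card]

end Pool.Agent.H935.RL.Exrefl
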